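import Pool.Agent.N743.DP.Lim

/-!
# Square roots of clusters of primes: differences in every direction

Q1 asks whether the differences of the square roots of consecutive primes tend to `0`. Here we look at the square roots
of clusters of primes: intervals `[y, y + C]` of bounded length with at least `k` primes of a reduced residue class.

(1) For every `m` there is `R` such that for every direction `α ∈ [0, ∞)^m` there is `s`, `1 / (R q) ≤ s ≤ R q`, such that
`s α` is a limit point of the vectors of differences of the square roots of the clusters: for every `k` and `δ > 0`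
there is `C` such that for infinitely many `y` the interval `[y, y + C]` contains `k` primes, and for every `i` there is `z`
with `|√z - √y - s α_i| ≤ δ` such that `[z, z + C]` contains `k` primes.

(2) Behind it is a statement on integers at every scale: for all large `X` and ALL multiples `d_1, …, d_m` of `C` up to
`X / R'` there is one `r ≤ R` (where `R` depends only on `m`) such that for at least `c X / (log X) ^ D` of the `y ≤ X` all the
intervals `[y, y + C]`, `[y + r d_i, y + r d_i + C]` contain `k` primes.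

The proof: the coloured theorem of Maynard-Tao type with the constant `18 / 5` of the starting files
(`Pool.Agent.Y827.RO.lamR0`) gives clusters at more than a quarter of the points of any finite set of multiples of `C`;
the density Hales-Jewett theorem (`Pool.Agent.Helper868.DHJ`) finds a dilated copy of `{0, d_1, …, d_m}` among them.
-/

set_option autoImplicit false

namespace Pool.Agent.Results.MP_3998cf_nt.ClustersInEveryDirection

open Finset Filter

/-- `[y, y + C]` contains at least `k` primes of the residue class `a` modulo `q` -/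
def Cluster (q a k C y : ℕ) : Prop :=
  k ≤ ((Icc y (y + C)).filter (fun p => p.Prime ∧ p ≡ a [MOD q])).card

/-- for infinitely many `y` there are clusters at `y` and at some `z i`, `i < m`, with
`|√(z i) - √y - s α i| ≤ δ` -/
def Occurs {m : ℕ} (q a k C : ℕ) (α : Fin m → ℝ) (s δ : ℝ) : Prop :=
  ∃ᶠ y : ℕ in atTop, Cluster q a k C y ∧
    ∀ i, ∃ z : ℕ, |Real.sqrt z - Real.sqrt y - s * α i| ≤ δ ∧ Cluster q a k C z

/-- the number of the `y ≤ X` with clusters at `y` and at all `y + r d i`, `i < m` -/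
noncomputable def patterns {m : ℕ} (q a k C r X : ℕ) (d : Fin m → ℕ) : ℕ :=
  {y : ℕ | y ≤ X ∧ Cluster q a k C y ∧ ∀ i, Cluster q a k C (y + r * d i)}.ncard

/-- from one scale `N` to `X` -/
theorem clean {m R : ℕ} (k q a C D R' : ℕ) (hq : 1 ≤ q) (c : ℝ) (hc : 0 < c)
    (hev : ∀ᶠ N : ℕ in atTop, ∀ d : Fin m → ℕ, (∀ i, C ∣ d i) →
      (∀ i, R' * d i ≤ N) → ∃ r b : ℕ, 1 ≤ r ∧ r ≤ R ∧ 2 * b ≤ N ∧
        c * (N / (Real.log N) ^ D) ≤ ((@Finset.filter _ (fun n : ℕ => (N : ℝ) / 16 ≤ n ∧
          Cluster q a k C (q * n + a + b) ∧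
          ∀ i, Cluster q a k C (q * n + a + b + r * d i)) (Classical.decPred _) (Icc 1 N)).card : ℝ)) :
    ∀ᶠ X : ℕ in atTop, ∀ d : Fin m → ℕ, (∀ i, C ∣ d i) → (∀ i, R' * (q + 2) * d i ≤ X) →
      ∃ r : ℕ, 1 ≤ r ∧ r ≤ R ∧
        c / (2 * (q + 2)) * X / (Real.log X) ^ D ≤ (patterns q a k C r X d : ℝ) := by
  classical
  have ht : Tendsto (fun X : ℕ => X / (q + 2)) atTop atTop := by
    refine tendsto_atTop.2 fun B => ?_
    filter_upwards [eventually_ge_atTop (B * (q + 2))] with X hX
    exact (Nat.le_div_iff_mul_le (by omega)).2 hX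
  filter_upwards [ht.eventually hev, ht.eventually (eventually_ge_atTop (max 3 a))] with X hX hX3 d hdC hdX
  set N := X / (q + 2) with hN
  have hN3 : 3 ≤ N := (le_max_left _ _).trans hX3
  have hNa : a ≤ N := (le_max_right _ _).trans hX3
  have hNX : N * (q + 2) ≤ X := Nat.div_mul_le_self X (q + 2)
  obtain ⟨r, b, hr1, hr2, hb, hcard⟩ := hX d hdC (fun i => by
    rw [hN]
    refine (Nat.le_div_iff_mul_le (by omega)).2 ?_
    calc R' * d i * (q + 2) = R' * (q + 2) * d i := by ring
      _ ≤ X := hdX i)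
  refine ⟨r, hr1, hr2, ?_⟩
  have hXN : X < (N + 1) * (q + 2) := by
    rw [hN]
    have := Nat.lt_div_mul_add (a := X) (b := q + 2) (by omega)
    linarith
  have h1 : (X : ℝ) ≤ 2 * (q + 2) * N := by
    have h2 : (X : ℝ) < ((N : ℝ) + 1) * (q + 2) := by exact_mod_cast hXN
    have h3 : (3 : ℝ) ≤ N := by exact_mod_cast hN3
    have h4 : (0 : ℝ) ≤ q := Nat.cast_nonneg q
    nlinarith
  have hlogN : 0 < Real.log N := Real.log_pos (by exact_mod_cast (by omega : 1 < N))
  have hNX' : N ≤ X := Nat.div_le_self _ _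
  have hNr : (0 : ℝ) < N := by exact_mod_cast (by omega : 0 < N)
  have hlog : Real.log N ≤ Real.log X := Real.log_le_log hNr (by exact_mod_cast hNX')
  have hqr : (0 : ℝ) ≤ q := Nat.cast_nonneg q
  calc c / (2 * (q + 2)) * X / (Real.log X) ^ D ≤ c / (2 * (q + 2)) * (2 * (q + 2) * N) / (Real.log N) ^ D := by
        have h5 : (Real.log N) ^ D ≤ (Real.log X) ^ D := pow_le_pow_left₀ hlogN.le hlog D
        have h6 : 0 < (Real.log N) ^ D := by positivity
        have h7 : c / (2 * (q + 2)) * (X : ℝ) ≤ c / (2 * (q + 2)) * (2 * (q + 2) * N) :=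
          mul_le_mul_of_nonneg_left h1 (by positivity)
        exact div_le_div₀ (by positivity) h7 h6 h5
    _ = c * (N / (Real.log N) ^ D) := by
        field_simp
    _ ≤ _ := hcard
    _ ≤ _ := by
      unfold patterns
      rw [← Set.ncard_coe_finset, Nat.cast_le]
      refine Set.ncard_le_ncard_of_injOn (fun n => q * n + a + b) ?_ ?_
        ((Set.finite_Iic X).subset fun y hy => hy.1)
      · intro n hn
        obtain ⟨hn1, -, hn4, hn5⟩ := (@Finset.mem_filter _ _ (Classical.decPred _) _ _).1 (Finset.mem_coe.1 hn)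
        have hn2 := (Finset.mem_Icc.1 hn1).2
        refine ⟨?_, hn4, hn5⟩
        have h8 : q * n ≤ q * N := Nat.mul_le_mul_left _ hn2
        have h9 : N * (q + 2) = q * N + N + N := by ring
        show q * n + a + b ≤ X
        omega
      · intro n _ n' _ h
        simp only at h
        have h8 : q * n = q * n' := by omega
        exact Nat.eq_of_mul_eq_mul_left (by omega) h8

/-- For every `m` there is `R` such that for all `q ≥ 1` and `a` prime to `q`: (1) for every `α ∈ [0, ∞)^m` there is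
`s ∈ [1 / (R q), R q]` such that for all `k` and `δ > 0` there is `C` such that for infinitely many `y` there are clusters of
`k` primes `≡ a` modulo `q` in `[y, y + C]` and in `m` intervals `[z_i, z_i + C]`, `|√z_i - √y - s α_i| ≤ δ`; (2) for every `k`
there are `C, D, R' ≥ 1` and `c > 0` such that for all large `X` and all multiples `d_1, …, d_m` of `C` with `R' d_i ≤ X`
there is `1 ≤ r ≤ R` such that for at least `c X / (log X) ^ D` of the `y ≤ X` there are clusters of `k` primes `≡ a`
modulo `q` in `[y, y + C]` and in all `[y + r d_i, y + r d_i + C]`. -/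
theorem result (m : ℕ) : ∃ R : ℕ, 1 ≤ R ∧ ∀ q a : ℕ, 1 ≤ q → a.Coprime q →
    (∀ α : Fin m → ℝ, (∀ i, 0 ≤ α i) → ∃ s : ℝ, 1 / ((R : ℝ) * q) ≤ s ∧ s ≤ R * q ∧
      ∀ (k : ℕ) (δ : ℝ), 0 < δ → ∃ C : ℕ, Occurs q a k C α s δ) ∧
    ∀ k : ℕ, ∃ C D R' : ℕ, 1 ≤ C ∧ ∃ c : ℝ, 0 < c ∧ ∀ᶠ X : ℕ in atTop, ∀ d : Fin m → ℕ,
      (∀ i, C ∣ d i) → (∀ i, R' * d i ≤ X) → ∃ r : ℕ, 1 ≤ r ∧ r ≤ R ∧
        c * X / (Real.log X) ^ D ≤ (patterns q a k C r X d : ℝ) := by
  classical
  obtain ⟨R₁, hR₁, h1⟩ := Pool.Agent.N743.DP.lim m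
  obtain ⟨R₂, hR₂, h2⟩ := Pool.Agent.N743.DP.core m
  refine ⟨max R₁ R₂, hR₁.trans (le_max_left _ _), fun q a hq ha => ⟨fun α hα => ?_, fun k => ?_⟩⟩
  · obtain ⟨s, hs1, hs2, hs3⟩ := h1 q a hq ha α hα
    have hqr : (0 : ℝ) < q := by exact_mod_cast (by omega : 0 < q)
    have hRr : (0 : ℝ) < R₁ := by exact_mod_cast (by omega : 0 < R₁)
    have hRR : (R₁ : ℝ) ≤ ((max R₁ R₂ : ℕ) : ℝ) := by exact_mod_cast le_max_left R₁ R₂
    have hle : (R₁ : ℝ) * q ≤ ((max R₁ R₂ : ℕ) : ℝ) * q := mul_le_mul_of_nonneg_right hRR hqr.le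
    refine ⟨s, ?_, hs2.trans hle, fun k δ hδ => ?_⟩
    · exact (one_div_le_one_div_of_le (by positivity) hle).trans hs1
    · obtain ⟨C, hC⟩ := hs3 k δ hδ
      exact ⟨C, hC⟩
  · obtain ⟨C, D, R', hC, hR', c, hc, hev⟩ := h2 k q a hq ha
    have hqr : (0 : ℝ) < q := by exact_mod_cast (by omega : 0 < q)
    refine ⟨C, D, R' * (q + 2), hC, c / (2 * (q + 2)), by positivity, ?_⟩
    have h3 := clean (R := R₂) (m := m) k q a C D R' hq c hc (by
      filter_upwards [hev] with N hN d hd1 hd2
      obtain ⟨r, b, e1, e2, e3, e4⟩ := hN d hd1 hd2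
      refine ⟨r, b, e1, e2, e3, e4.trans (le_of_eq ?_)⟩
      congr!)
    filter_upwards [h3] with X hX d hd1 hd2
    obtain ⟨r, e1, e2, e3⟩ := hX d hd1 hd2
    exact ⟨r, e1, e2.trans (le_max_right _ _), e3⟩

end Pool.Agent.Results.MP_3998cf_nt.ClustersInEveryDirection
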