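import Mathlib
import Pool.Agent.N417.SM.Sq
import Pool.Agent.N740.HK.Sch

/-!
# Differences of square roots of consecutive members of adapted random sets

A random set of integers is built one integer at a time.  The sharp density threshold for the limit
`0` of `√(p (n + 1)) - √(p n)`: conditional probabilities of the order `log n / √n` (the primes have
the much larger density `1 / log n`), with the exact value of the upper limit at the threshold; and the
exact order of the differences in all models with the density of the primes.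
-/

set_option autoImplicit false

open MeasureTheory Filter Set ProbabilityTheory
open scoped Topology

namespace Pool.Agent.Results.MP_3998cf_nt.DensityThreshold

variable {Ω : Type}

/-- `A n` is the event that `n` is chosen.  The events are adapted to the filtration `ℱ` and the
conditional probability of `A (n + 1)` given `ℱ n`, times `w n`, tends to `l` (a limit expressed by a
filter: `𝓝 κ` or `atTop`) almost surely.  Nothing is assumed about independence or rates. -/
def Model [m : MeasurableSpace Ω] (μ : Measure Ω) (ℱ : Filtration ℕ m) (A : ℕ → Set Ω) (w : ℕ → ℝ) (l : Filter ℝ) : Prop :=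
  (∀ n, MeasurableSet[ℱ n] (A n)) ∧
  ∀ᵐ ω ∂μ, Tendsto (fun n : ℕ => (μ[(A (n + 1)).indicator (fun _ => (1 : ℝ)) | ℱ n]) ω * w n) atTop l

/-- The model of Cramér: independent events, `n` is chosen with probability `1 / log n` for `n ≥ 3`. -/
def CramerModel [MeasurableSpace Ω] (μ : Measure Ω) (A : ℕ → Set Ω) : Prop :=
  (∀ n, MeasurableSet (A n)) ∧ iIndepSet A μ ∧ ∀ n : ℕ, 3 ≤ n → μ (A n) = ENNReal.ofReal (1 / Real.log n)

open Classical in
/-- The random sieve of Hawkins: `2` is chosen, and given the decisions up to `n ≥ 2` the number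
`n + 1` is chosen with probability `∏ (1 - 1 / h)`, the product over the chosen `2 ≤ h ≤ n`. -/
def HawkinsSieve [m : MeasurableSpace Ω] (μ : Measure Ω) (ℱ : Filtration ℕ m) (A : ℕ → Set Ω) : Prop :=
  (∀ n, MeasurableSet[ℱ n] (A n)) ∧ A 2 = univ ∧
  ∀ n, 2 ≤ n → μ[(A (n + 1)).indicator (fun _ => (1 : ℝ)) | ℱ n] =ᵐ[μ]
    fun ω => ∏ h ∈ Finset.Icc 2 n, if ω ∈ A h then 1 - 1 / (h : ℝ) else 1

/-- the member number `n` of `S` in increasing order, the least member has number `0` -/
noncomputable def p (S : Set ℕ) (n : ℕ) : ℕ := Nat.nth (· ∈ S) n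

/-- `√(p (n + 1)) - √(p n)` -/
noncomputable def d (S : Set ℕ) (n : ℕ) : ℝ := √(p S (n + 1) : ℝ) - √(p S n : ℝ)

open Pool.Agent.N740.HK Pool.Agent.R528.RM

lemma prod_inv (A : ℕ → Set Ω) (n : ℕ) (ω : Ω) [DecidablePred fun h => ω ∈ A h] :
    (∏ h ∈ Finset.Icc 2 n, if ω ∈ A h then 1 - 1 / (h : ℝ) else 1) = (Y A n ω)⁻¹ := by
  unfold Y
  rw [← Finset.prod_inv_distrib]
  refine Finset.prod_congr rfl fun h hh => ?_
  have h2 : (2 : ℝ) ≤ h := by exact_mod_cast (Finset.mem_Icc.1 hh).1
  by_cases hA : ω ∈ A h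
  · rw [if_pos hA, if_pos hA, inv_div]
    field_simp
  · rw [if_neg hA, if_neg hA, inv_one]

lemma log_ratio : Tendsto (fun n : ℕ => (Real.log ((n + 1 : ℕ) : ℝ))⁻¹ * Real.log n) atTop (𝓝 1) := by
  have h1 : Tendsto (fun n : ℕ => Real.log ((n : ℝ) + 1) - Real.log n) atTop (𝓝 0) := by
    have h1 : Tendsto (fun n : ℕ => 1 + (1 : ℝ) / n) atTop (𝓝 (1 + 0)) :=
      tendsto_const_nhds.add tendsto_one_div_atTop_nhds_zero_nat
    rw [add_zero] at h1
    have h2 := (Real.continuousAt_log (one_ne_zero)).tendsto.comp h1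
    rw [Real.log_one] at h2
    refine h2.congr' ?_
    filter_upwards [eventually_gt_atTop 0] with n hn
    have hn' : (0 : ℝ) < n := by exact_mod_cast hn
    show Real.log (1 + 1 / (n : ℝ)) = _
    rw [← Real.log_div (by positivity) hn'.ne']
    congr 1
    field_simp
  have h2 : Tendsto (fun n : ℕ => Real.log ((n : ℝ) + 1)) atTop atTop :=
    Real.tendsto_log_atTop.comp (tendsto_atTop_add_const_right _ _ tendsto_natCast_atTop_atTop)
  have h3 := h1.div_atTop h2
  have h4 : Tendsto (fun n : ℕ => 1 - (Real.log ((n : ℝ) + 1) - Real.log n) / Real.log ((n : ℝ) + 1)) atTop (𝓝 (1 - 0)) :=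
    tendsto_const_nhds.sub h3
  rw [sub_zero] at h4
  refine h4.congr' ?_
  filter_upwards [h2.eventually_gt_atTop 0] with n hn
  push_cast
  field_simp
  ring

end Pool.Agent.Results.MP_3998cf_nt.DensityThreshold

open Pool.Agent.Results.MP_3998cf_nt.DensityThreshold Pool.Agent.N740.HK Pool.Agent.R528.RM Pool.Agent.N417.SM

/-- Let `S` be the set of the chosen integers, `p n` its members in increasing order, and
`d n = √(p (n + 1)) - √(p n)`; let `P n` be the conditional probability of choosing `n + 1`.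
The model of Cramér and the random sieve of Hawkins satisfy `P n log n → 1`.  Almost surely:
(1) if `P n √n / log n → ∞` then `d n → 0`;
(2) if `P n √n / log n → κ > 0` then `limsup d n = 1 / (4 κ)`;
(3) if `P n √n / log n → 0` then `d n` is unbounded (or `S` is finite);
(4) if `P n log n → 1` (the density of the primes) then `d n → 0`, and the limit points of
`2 √(p n) d n / (log (p n)) ^ 2` are exactly the numbers in `[0, 1]`. -/
theorem Pool.Agent.Results.MP_3998cf_nt.DensityThreshold.result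
    {Ω : Type} [m : MeasurableSpace Ω] (μ : Measure Ω) [IsProbabilityMeasure μ] (A : ℕ → Set Ω) :
    (CramerModel μ A → ∃ ℱ : Filtration ℕ m, Model μ ℱ A (fun n => Real.log n) (𝓝 1)) ∧
    ∀ ℱ : Filtration ℕ m,
    (HawkinsSieve μ ℱ A → Model μ ℱ A (fun n => Real.log n) (𝓝 1)) ∧
    (Model μ ℱ A (fun n => √(n : ℝ) / Real.log n) atTop →
      ∀ᵐ ω ∂μ, {k | ω ∈ A k}.Infinite ∧ Tendsto (d {k | ω ∈ A k}) atTop (𝓝 0)) ∧
    (∀ κ : ℝ, 0 < κ → Model μ ℱ A (fun n => √(n : ℝ) / Real.log n) (𝓝 κ) →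
      ∀ᵐ ω ∂μ, {k | ω ∈ A k}.Infinite ∧ limsup (d {k | ω ∈ A k}) atTop = 1 / (4 * κ)) ∧
    (Model μ ℱ A (fun n => √(n : ℝ) / Real.log n) (𝓝 0) →
      ∀ᵐ ω ∂μ, {k | ω ∈ A k}.Infinite → ∀ C : ℝ, ∃ᶠ n in atTop, C < d {k | ω ∈ A k} n) ∧
    (Model μ ℱ A (fun n => Real.log n) (𝓝 1) →
      ∀ᵐ ω ∂μ, {k | ω ∈ A k}.Infinite ∧ Tendsto (d {k | ω ∈ A k}) atTop (𝓝 0) ∧
        ∀ c : ℝ, MapClusterPt c atTop (fun n => 2 * √(p {k | ω ∈ A k} n : ℝ) * d {k | ω ∈ A k} n /
          Real.log (p {k | ω ∈ A k} n) ^ 2) ↔ 0 ≤ c ∧ c ≤ 1) := by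
  classical
  refine ⟨?_, fun ℱ => ⟨?_, ?_, ?_, ?_, ?_⟩⟩
  · rintro ⟨hA, hi, hp⟩
    refine ⟨gen hA, gen_meas hA, ?_⟩
    have h1 : ∀ᵐ ω ∂μ, ∀ n, (μ[(A (n + 1)).indicator (fun _ => (1 : ℝ)) | gen hA n]) ω =
        (μ (A (n + 1))).toReal := ae_all_iff.2 fun n => dens_gen hA hi n
    filter_upwards [h1] with ω hω
    refine log_ratio.congr' ?_
    filter_upwards [eventually_ge_atTop 2] with n hn
    rw [hω, hp (n + 1) (by omega), ENNReal.toReal_ofReal, one_div]
    have : 0 ≤ Real.log ((n + 1 : ℕ) : ℝ) := Real.log_natCast_nonneg _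
    positivity
  · rintro ⟨h1, h2, h3⟩
    have hs : Pool.Agent.N740.HK.HS μ ℱ A := ⟨h1, h2, fun n hn => by
      filter_upwards [h3 n hn] with ω hω
      rw [← prod_inv]
      exact hω⟩
    exact ⟨h1, Pool.Agent.N740.HK.hawk_dens hs⟩
  · rintro ⟨hA, hd⟩
    exact root_top hA hd
  · rintro κ hκ ⟨hA, hd⟩
    exact root_law hA hκ hd
  · rintro ⟨hA, hd⟩
    exact root_zero hA hd
  · rintro ⟨hA, hd⟩
    have hroot : ∀ᵐ ω ∂μ, Tendsto (fun n : ℕ => (μ[(A (n + 1)).indicator (fun _ => (1 : ℝ)) | ℱ n]) ω *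
        (√(n : ℝ) / Real.log n)) atTop atTop := by
      filter_upwards [hd] with ω hω
      have h1 : Tendsto (fun n : ℕ => √(n : ℝ) / Real.log n ^ 2) atTop atTop := by
        have h2 : Tendsto (fun x : ℝ => Real.log x ^ 2 / √x) atTop (𝓝 0) := by
          have h3 := ((isLittleO_log_rpow_atTop (show (0 : ℝ) < 1 / 4 by norm_num)).tendsto_div_nhds_zero).pow 2
          rw [zero_pow (by norm_num)] at h3
          refine h3.congr' ?_
          filter_upwards [eventually_ge_atTop 0] with x hx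
          rw [div_pow]
          congr 1
          rw [← Real.rpow_natCast, ← Real.rpow_mul hx, Real.sqrt_eq_rpow]
          norm_num
        have h3 : Tendsto (fun n : ℕ => Real.log n ^ 2 / √(n : ℝ)) atTop (𝓝[>] 0) := by
          rw [tendsto_nhdsWithin_iff]
          refine ⟨h2.comp tendsto_natCast_atTop_atTop, ?_⟩
          filter_upwards [eventually_ge_atTop 2] with n hn
          have hn' : (2 : ℝ) ≤ n := by exact_mod_cast hn
          have hL : 0 < Real.log n := Real.log_pos (by linarith)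
          have hs : 0 < √(n : ℝ) := Real.sqrt_pos.2 (by linarith)
          exact div_pos (by positivity) hs
        refine h3.inv_tendsto_nhdsGT_zero.congr fun n => ?_
        rw [Pi.inv_apply, inv_div]
      refine (hω.pos_mul_atTop one_pos h1).congr' ?_
      filter_upwards [eventually_ge_atTop 2] with n hn
      have hn' : (2 : ℝ) ≤ n := by exact_mod_cast hn
      have hL : 0 < Real.log n := Real.log_pos (by linarith)
      field_simp
    filter_upwards [up_ae hA hd, low_ae hA hd, root_top hA hroot] with ω h1 h2 h3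
    obtain ⟨hS, h4⟩ := h3
    refine ⟨hS, h4, fun c => ?_⟩
    apply cl_Icc hS h1 h2
    have ht : Tendsto (pn {k | ω ∈ A k}) atTop atTop := (Nat.nth_strictMono hS).tendsto_atTop
    have htr : Tendsto (fun n => √(pn {k | ω ∈ A k} n : ℝ)) atTop atTop :=
      Real.tendsto_sqrt_atTop.comp (tendsto_natCast_atTop_atTop.comp ht)
    have hlq : Tendsto (fun n : ℕ => Real.log (pn {k | ω ∈ A k} n)) atTop atTop := tendsto_logN.comp ht
    -- 2 √P / (√P' + √P) → 1
    have h5 : Tendsto (fun n => 2 / (2 + (√(pn {k | ω ∈ A k} (n + 1) : ℝ) - √(pn {k | ω ∈ A k} n : ℝ)) /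
        √(pn {k | ω ∈ A k} n : ℝ))) atTop (𝓝 1) := by
      have h6 := (h4.div_atTop htr).const_add 2
      have h7 := (tendsto_const_nhds (x := (2 : ℝ))).div h6 (by norm_num)
      rw [add_zero, div_self (by norm_num)] at h7
      exact h7
    refine h5.congr' ?_
    filter_upwards [htr.eventually_gt_atTop 0, hlq.eventually_gt_atTop 0] with n hn hn2
    have hg := gr_ge hS n
    have hd0 := sq_pos hS n
    obtain ⟨y, hy⟩ : ∃ y, y = √(pn {k | ω ∈ A k} n : ℝ) := ⟨_, rfl⟩
    obtain ⟨z, hz⟩ : ∃ z, z = √(pn {k | ω ∈ A k} (n + 1) : ℝ) := ⟨_, rfl⟩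
    have hg2 : gr {k | ω ∈ A k} n = (z - y) * (z + y) := by
      unfold gr
      have e1 : (pn {k | ω ∈ A k} (n + 1) : ℝ) = z ^ 2 := by rw [hz, Real.sq_sqrt (Nat.cast_nonneg _)]
      have e2 : (pn {k | ω ∈ A k} n : ℝ) = y ^ 2 := by rw [hy, Real.sq_sqrt (Nat.cast_nonneg _)]
      rw [e1, e2]
      ring
    show _ = 2 * √(pn {k | ω ∈ A k} n : ℝ) * (√(pn {k | ω ∈ A k} (n + 1) : ℝ) - √(pn {k | ω ∈ A k} n : ℝ)) /
      Real.log (pn {k | ω ∈ A k} n) ^ 2 / (gr {k | ω ∈ A k} n / Real.log (pn {k | ω ∈ A k} n) ^ 2)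
    rw [hg2, ← hy, ← hz] 
    rw [← hy] at hn
    rw [← hy, ← hz] at hd0
    have hzy : 0 < z + y := by linarith
    have h2y : 2 + (z - y) / y ≠ 0 := by
      have : 0 < (z - y) / y := by positivity
      linarith
    have e3 : 2 + (z - y) / y = (z + y) / y := by field_simp; ring
    rw [e3]
    field_simp
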