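import Mathlib
import Pool.Agent.N740.HK.Lim
import Pool.Agent.N740.HK.Sch
import Pool.Agent.N740.HK.Tgt
import Pool.Agent.N886.SM.Dif

/-!
# Differences of square roots of consecutive members in all sequential random models of the primes

The integers are decided one after the other and the conditional probability of choosing `n + 1`,
given the decisions up to `n`, is asymptotic to `1 / log n`, almost surely.  Nothing else is assumed:
no independence and no rate of convergence.  The independent model of Cramér and the random sieve of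
Hawkins are examples.
-/

set_option autoImplicit false

open MeasureTheory Filter Set ProbabilityTheory
open scoped Topology

namespace Pool.Agent.Results.MP_3998cf_nt.SequentialModels

variable {Ω : Type}

/-- `A n` is the event that `n` is chosen.  The events are adapted to the filtration `ℱ` and the
conditional probability of `A (n + 1)` given `ℱ n`, times `log n`, tends to `1` almost surely. -/
def SequentialModel [m : MeasurableSpace Ω] (μ : Measure Ω) (ℱ : Filtration ℕ m) (A : ℕ → Set Ω) : Prop :=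
  (∀ n, MeasurableSet[ℱ n] (A n)) ∧
  ∀ᵐ ω ∂μ, Tendsto (fun n : ℕ => (μ[(A (n + 1)).indicator (fun _ => (1 : ℝ)) | ℱ n]) ω * Real.log n) atTop (𝓝 1)

/-- The model of Cramér: independent events, `n` is chosen with probability `1 / log n` for `n ≥ 3`. -/
def CramerModel [MeasurableSpace Ω] (μ : Measure Ω) (A : ℕ → Set Ω) : Prop :=
  (∀ n, MeasurableSet (A n)) ∧ iIndepSet A μ ∧ ∀ n : ℕ, 3 ≤ n → μ (A n) = ENNReal.ofReal (1 / Real.log n)

open Classical in
/-- The random sieve of Hawkins: `2` is chosen, and given the decisions up to `n ≥ 2` the number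
`n + 1` is chosen with probability `∏ (1 - 1 / h)`, the product over the chosen `2 ≤ h ≤ n`. -/
def HawkinsSieve [m : MeasurableSpace Ω] (μ : Measure Ω) (ℱ : Filtration ℕ m) (A : ℕ → Set Ω) : Prop :=
  (∀ n, MeasurableSet[ℱ n] (A n)) ∧ A 2 = univ ∧
  ∀ n, 2 ≤ n → μ[(A (n + 1)).indicator (fun _ => (1 : ℝ)) | ℱ n] =ᵐ[μ]
    fun ω => ∏ h ∈ Finset.Icc 2 n, if ω ∈ A h then 1 - 1 / (h : ℝ) else 1

/-- The members of `S` in increasing order, numbered from `0`. -/
noncomputable def p (S : Set ℕ) (n : ℕ) : ℕ := Nat.nth (· ∈ S) n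

/-- The difference of the `θ`-th powers of two consecutive members of `S`. -/
noncomputable def d (S : Set ℕ) (θ : ℝ) (n : ℕ) : ℝ := (p S (n + 1) : ℝ) ^ θ - (p S n : ℝ) ^ θ

open Pool.Agent.N740.HK Pool.Agent.R528.RM

lemma prod_inv (A : ℕ → Set Ω) (n : ℕ) (ω : Ω) [DecidablePred fun h => ω ∈ A h] :
    (∏ h ∈ Finset.Icc 2 n, if ω ∈ A h then 1 - 1 / (h : ℝ) else 1) = (Y A n ω)⁻¹ := by
  unfold Y
  rw [← Finset.prod_inv_distrib]
  refine Finset.prod_congr rfl fun h hh => ?_
  have h2 : (2 : ℝ) ≤ h := by exact_mod_cast (Finset.mem_Icc.1 hh).1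
  by_cases hA : ω ∈ A h
  · rw [if_pos hA, if_pos hA, inv_div]
    field_simp
  · rw [if_neg hA, if_neg hA, inv_one]

lemma log_ratio : Tendsto (fun n : ℕ => (Real.log ((n + 1 : ℕ) : ℝ))⁻¹ * Real.log n) atTop (𝓝 1) := by
  have h1 : Tendsto (fun n : ℕ => Real.log ((n : ℝ) + 1) - Real.log n) atTop (𝓝 0) := by
    have h1 : Tendsto (fun n : ℕ => 1 + (1 : ℝ) / n) atTop (𝓝 (1 + 0)) :=
      tendsto_const_nhds.add tendsto_one_div_atTop_nhds_zero_nat
    rw [add_zero] at h1
    have h2 := (Real.continuousAt_log (one_ne_zero)).tendsto.comp h1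
    rw [Real.log_one] at h2
    refine h2.congr' ?_
    filter_upwards [eventually_gt_atTop 0] with n hn
    have hn' : (0 : ℝ) < n := by exact_mod_cast hn
    show Real.log (1 + 1 / (n : ℝ)) = _
    rw [← Real.log_div (by positivity) hn'.ne']
    congr 1
    field_simp
  have h2 : Tendsto (fun n : ℕ => Real.log ((n : ℝ) + 1)) atTop atTop :=
    Real.tendsto_log_atTop.comp (tendsto_atTop_add_const_right _ _ tendsto_natCast_atTop_atTop)
  have h3 := h1.div_atTop h2
  have h4 : Tendsto (fun n : ℕ => 1 - (Real.log ((n : ℝ) + 1) - Real.log n) / Real.log ((n : ℝ) + 1)) atTop (𝓝 (1 - 0)) :=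
    tendsto_const_nhds.sub h3
  rw [sub_zero] at h4
  refine h4.congr' ?_
  filter_upwards [h2.eventually_gt_atTop 0] with n hn
  push_cast
  field_simp
  ring

end Pool.Agent.Results.MP_3998cf_nt.SequentialModels

open Pool.Agent.Results.MP_3998cf_nt.SequentialModels Pool.Agent.N740.HK Pool.Agent.R528.RM

/-- The random sieve of Hawkins is a sequential model, the model of Cramér is one for some filtration.
In every sequential model, almost surely: infinitely many integers are chosen; with `p` the chosen integers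
in increasing order, `√(p (n + 1)) - √(p n)` tends to `0`, and so do the differences of the `θ`-th powers for
every `0 < θ < 1`; and for every `θ > 0` the set of the limit points of
`(p n) ^ (1 - θ) * ((p (n + 1)) ^ θ - (p n) ^ θ) / (log (p n)) ^ 2` is exactly `[0, θ]`; in particular that of
`√(p n) * (√(p (n + 1)) - √(p n)) / (log (p n)) ^ 2` is `[0, 1 / 2]`. -/
theorem Pool.Agent.Results.MP_3998cf_nt.SequentialModels.result
    {Ω : Type} [m : MeasurableSpace Ω] (μ : Measure Ω) [IsProbabilityMeasure μ] (A : ℕ → Set Ω) :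
    (CramerModel μ A → ∃ ℱ : Filtration ℕ m, SequentialModel μ ℱ A) ∧
    ∀ ℱ : Filtration ℕ m,
    (HawkinsSieve μ ℱ A → SequentialModel μ ℱ A) ∧
    (SequentialModel μ ℱ A →
      ∀ᵐ ω ∂μ,
        {k | ω ∈ A k}.Infinite ∧
        Tendsto (fun n : ℕ => √(p {k | ω ∈ A k} (n + 1) : ℝ) - √(p {k | ω ∈ A k} n : ℝ)) atTop (𝓝 0) ∧
        {y : ℝ | MapClusterPt y atTop fun n : ℕ => √(p {k | ω ∈ A k} n : ℝ) *
          (√(p {k | ω ∈ A k} (n + 1) : ℝ) - √(p {k | ω ∈ A k} n : ℝ)) / Real.log (p {k | ω ∈ A k} n) ^ 2} =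
          Icc 0 (1 / 2) ∧
        (∀ θ : ℝ, 0 < θ → θ < 1 → Tendsto (fun n : ℕ => d {k | ω ∈ A k} θ n) atTop (𝓝 0)) ∧
        ∀ θ : ℝ, 0 < θ →
          {y : ℝ | MapClusterPt y atTop fun n : ℕ => (p {k | ω ∈ A k} n : ℝ) ^ (1 - θ) *
            d {k | ω ∈ A k} θ n / Real.log (p {k | ω ∈ A k} n) ^ 2} = Icc 0 θ) := by
  classical
  refine ⟨?_, fun ℱ => ⟨?_, ?_⟩⟩
  · rintro ⟨hA, hi, hp⟩
    refine ⟨gen hA, gen_meas hA, ?_⟩
    have h1 : ∀ᵐ ω ∂μ, ∀ n, (μ[(A (n + 1)).indicator (fun _ => (1 : ℝ)) | gen hA n]) ω =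
        (μ (A (n + 1))).toReal := ae_all_iff.2 fun n => dens_gen hA hi n
    filter_upwards [h1] with ω hω
    refine log_ratio.congr' ?_
    filter_upwards [eventually_ge_atTop 2] with n hn
    rw [hω, hp (n + 1) (by omega), ENNReal.toReal_ofReal, one_div]
    have : 0 ≤ Real.log ((n + 1 : ℕ) : ℝ) := Real.log_natCast_nonneg _
    positivity
  · rintro ⟨h1, h2, h3⟩
    have hs : Pool.Agent.N740.HK.HS μ ℱ A := ⟨h1, h2, fun n hn => by
      filter_upwards [h3 n hn] with ω hω
      rw [← prod_inv]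
      exact hω⟩
    exact ⟨h1, Pool.Agent.N740.HK.hawk_dens hs⟩
  · rintro ⟨hA, hd⟩
    filter_upwards [up_ae (μ := μ) hA hd, low_ae (μ := μ) hA hd, cnt_law (μ := μ) hA hd] with ω hup hlow hcnt
    have hS : {k | ω ∈ A k}.Infinite := inf_of_law hcnt
    have hsq : ∀ n : ℕ, d {k | ω ∈ A k} (1 / 2) n =
        √(p {k | ω ∈ A k} (n + 1) : ℝ) - √(p {k | ω ∈ A k} n : ℝ) := fun n => by
      unfold d
      rw [Real.sqrt_eq_rpow, Real.sqrt_eq_rpow]
    have hz : ∀ θ : ℝ, 0 < θ → θ < 1 → Tendsto (fun n : ℕ => d {k | ω ∈ A k} θ n) atTop (𝓝 0) :=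
      fun θ h0 h1 => Pool.Agent.N886.SM.dif_zero hS hup h0 h1
    have hc : ∀ θ : ℝ, 0 < θ → {y : ℝ | MapClusterPt y atTop fun n : ℕ => (p {k | ω ∈ A k} n : ℝ) ^ (1 - θ) *
        d {k | ω ∈ A k} θ n / Real.log (p {k | ω ∈ A k} n) ^ 2} = Icc 0 θ := fun θ h0 => by
      ext y
      exact Pool.Agent.N886.SM.cluster hS hup hlow h0 y
    refine ⟨hS, ?_, ?_, hz, hc⟩
    · refine (hz (1 / 2) (by norm_num) (by norm_num)).congr fun n => hsq n
    · rw [← hc (1 / 2) (by norm_num)]
      congr 1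
      ext y
      have : (fun n : ℕ => √(p {k | ω ∈ A k} n : ℝ) *
          (√(p {k | ω ∈ A k} (n + 1) : ℝ) - √(p {k | ω ∈ A k} n : ℝ)) / Real.log (p {k | ω ∈ A k} n) ^ 2) =
          fun n : ℕ => (p {k | ω ∈ A k} n : ℝ) ^ (1 - 1 / 2 : ℝ) *
            d {k | ω ∈ A k} (1 / 2) n / Real.log (p {k | ω ∈ A k} n) ^ 2 := by
        funext n
        rw [hsq n, show (1 - 1 / 2 : ℝ) = 1 / 2 by norm_num, ← Real.sqrt_eq_rpow]
      rw [this]
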